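import Pool.Agent.H295R2.SI.Defs

/-! T13 (helper602): the main theorem from the pair correlation bound and the trace inequality. -/

open Complex Filter Topology Set MeasureTheory

namespace H602SI

open H370 H295SI

theorem main_short (h1 : WinS) (h2 : ConvS) (h3 : KSqS) (h4 : ConstS) (h7 : TraceG)
    (h9 : CountShort) (h12 : PairShort) : MainShort := by
  intro F hF h ε hh0 hh1 hε
  have hs2 : 0 < Real.sqrt 2 := Real.sqrt_pos.2 (by norm_num)
  set s : ℝ := Real.sqrt 2 * h with hs
  have hs0 : 0 < s := by positivity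
  have hs1 : s ≤ Real.sqrt 2 := by
    rw [hs]
    nlinarith
  have hW := h1 s hs0 hs1
  have hC := h2 s hs0 hs1
  have hK := h3 s hs0 hs1
  have hc := h4 h hh0 hh1
  rw [← hs] at hc
  set R : ℝ → ℝ := RS s with hR
  set J : ℝ := ∫ α in (0 : ℝ)..1, α * R α with hJ
  have hJ0 : 0 ≤ J := by
    apply intervalIntegral.integral_nonneg (by norm_num)
    intro u hu
    exact mul_nonneg hu.1 (hC.nonneg u)
  have hR0 : 0 ≤ R 0 := hC.nonneg 0
  have hcR : ∀ x, cR R x = R 0 / x + 2 * x * J := fun x => rfl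
  have hcc0 : 0 ≤ cc h := by
    rw [← hc, hcR]
    positivity
  set e : ℝ := min ε 1 with he
  have he0 : 0 < e := lt_min hε one_pos
  have he1 : e ≤ ε := min_le_left _ _
  have he2 : e ≤ 1 := min_le_right _ _
  set η : ℝ := e / 80 with hη
  have hη0 : 0 < η := by positivity
  set δ : ℝ := min (h / 2) (e * h ^ 2 / (8 * (R 0 + 1))) with hδ
  have hδ0 : 0 < δ := lt_min (by positivity) (by positivity)
  have hδ1 : δ ≤ h / 2 := min_le_left _ _
  have hδ2 : δ * (8 * (R 0 + 1)) ≤ e * h ^ 2 := by
    have := min_le_right (h / 2) (e * h ^ 2 / (8 * (R 0 + 1)))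
    rw [← hδ, le_div_iff₀ (by positivity)] at this
    exact this
  -- the constant at `h - δ`
  have hcδ : cR R (h - δ) ≤ cc h + e / 4 := by
    rw [hcR, ← hc, hcR]
    have hhδ : 0 < h - δ := by linarith
    have h5 : R 0 / (h - δ) ≤ R 0 / h + e / 4 := by
      rw [div_le_iff₀ hhδ, add_mul, div_mul_eq_mul_div, ← sub_le_iff_le_add, ]
      have h6 : R 0 - e / 4 * (h - δ) ≤ R 0 * (h - δ) / h := by
        rw [le_div_iff₀ hh0]
        nlinarith [mul_nonneg hR0 hδ0.le, mul_pos he0 hh0]
      linarith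
    have h7 : 2 * (h - δ) * J ≤ 2 * h * J := by nlinarith
    linarith
  obtain ⟨T2, hT2, hPC⟩ := h12 (gS s) R hW hC hK F hF h δ η hδ0 (by linarith) hh1 hη0
  obtain ⟨C, hC0, hends⟩ := h9 F hF
  set B : ℝ := max 3 (2 * Real.pi * C * 80 / e) with hB
  have hB3 : 3 ≤ B := le_max_left _ _
  refine ⟨max (max 10 T2) (B ^ (1 / h)), le_trans (by norm_num) ((le_max_left _ _).trans
    (le_max_left _ _)), fun T hT H hH1 hH2 => ?_⟩
  have hT10 : 10 ≤ T := ((le_max_left _ _).trans (le_max_left _ _)).trans hT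
  have hTT2 : T2 ≤ T := ((le_max_right _ _).trans (le_max_left _ _)).trans hT
  have hTB : B ≤ T ^ h := by
    have h5 : B ^ (1 / h) ≤ T := (le_max_right _ _).trans hT
    have h6 := Real.rpow_le_rpow (Real.rpow_nonneg (by linarith) _) h5 hh0.le
    rw [← Real.rpow_mul (by linarith), one_div_mul_cancel hh0.ne', Real.rpow_one] at h6
    exact h6
  have hHB : B ≤ H := hTB.trans hH1
  have hH3 : 3 ≤ H := hB3.trans hHB
  have hHC : 2 * Real.pi * C * 80 / e ≤ H := (le_max_right _ _).trans hHB
  obtain ⟨U1, U2, hU1, hU1', hU2, hU2', hNN, hQQ⟩ := hPC T hTT2 H hH1 hH2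
  have hL : 0 < Real.log T := Real.log_pos (by linarith)
  set M : ℝ := H * Real.log T / (2 * Real.pi) with hM
  have hpi := Real.pi_pos
  have hM0 : 0 < M := by positivity
  have hTL : H * Real.log T = 2 * Real.pi * M := by rw [hM]; field_simp
  rw [hTL] at hNN
  have hpi2 : Real.pi < 3.15 := Real.pi_lt_d2
  have hηM : η * (2 * Real.pi * M) ≤ 7 * η * M := by
    have : 2 * Real.pi ≤ 7 := by linarith
    calc η * (2 * Real.pi * M) = (η * M) * (2 * Real.pi) := by ring
      _ ≤ (η * M) * 7 := by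
        apply mul_le_mul_of_nonneg_left this (by positivity)
      _ = 7 * η * M := by ring
  obtain ⟨hNNl, hNNu⟩ := abs_le.mp hNN
  have hU : 1 ≤ U1 := by linarith
  obtain ⟨hb1, hb2⟩ := h7 (gS s) hW F hF U1 U2 hU ((h - δ) * Real.log T)
  have hQ : QQG (gS s) F ((h - δ) * Real.log T) U1 U2 ≤ M * (cc h + e / 4 + η) := by
    refine hQQ.trans ?_
    exact mul_le_mul_of_nonneg_left (by linarith) hM0.le
  have hNsm : (Ns F U1 U2 : ℝ) ≤ Ns F T (T + H) := by
    exact_mod_cast Ns_mono hF (by linarith) hU1 hU2'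
  have hNdm : (Nd F U1 U2 : ℝ) ≤ Nd F T (T + H) := by
    exact_mod_cast Nd_mono hF (by linarith) hU1 hU2'
  have hend := (hends T hT10 H hH3 hH2 U1 U2 hU1 hU1' hU2 hU2').2
  have hCL : C * Real.log T ≤ η * M := by
    rw [hM]
    rw [div_le_iff₀ he0] at hHC
    have : η * (H * Real.log T / (2 * Real.pi)) =
      (H * e) * (Real.log T / (160 * Real.pi)) := by rw [hη]; ring
    rw [this]
    calc C * Real.log T = (2 * Real.pi * C * 80) * (Real.log T / (160 * Real.pi)) := by
          field_simp; ring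
      _ ≤ (H * e) * (Real.log T / (160 * Real.pi)) :=
        mul_le_mul_of_nonneg_right hHC (by positivity)
  have hNtot : (NN F T (T + H) : ℝ) ≤ M * (1 + e / 10) := by
    have : M * (1 + e / 10) = M + 7 * η * M + η * M := by rw [hη]; ring
    rw [this]
    linarith
  have hNN0 : (0 : ℝ) ≤ NN F T (T + H) := Nat.cast_nonneg _
  have heM : 0 < e * M := by positivity
  have hηe : η * M = e * M / 80 := by rw [hη]; ring
  constructor
  · rcases le_or_gt (2 - cc h - ε) 0 with h0 | h0
    · exact (mul_nonpos_of_nonpos_of_nonneg h0 hNN0).trans (Nat.cast_nonneg _)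
    · have h5 : (2 - cc h - ε) * (NN F T (T + H) : ℝ) ≤ (2 - cc h - ε) * (M * (1 + e / 10)) :=
        mul_le_mul_of_nonneg_left hNtot h0.le
      have h6 : (2 - cc h - ε) * (M * (1 + e / 10)) ≤ (2 - cc h - e + e / 5) * M := by
        have h7 : (2 - cc h - ε) * (e / 10) ≤ 2 * (e / 10) :=
          mul_le_mul_of_nonneg_right (by linarith) (by positivity)
        calc (2 - cc h - ε) * (M * (1 + e / 10)) =
            ((2 - cc h - ε) + (2 - cc h - ε) * (e / 10)) * M := by ring
          _ ≤ _ := mul_le_mul_of_nonneg_right (by linarith) hM0.le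
      have h8 : M * (cc h + e / 4 + η) = cc h * M + e * M / 4 + e * M / 80 := by
        rw [hη]; ring
      have h9 : (2 - cc h - e + e / 5) * M = 2 * M - cc h * M - e * M + e * M / 5 := by ring
      have h10 : 7 * η * M = 7 * (e * M / 80) := by rw [hη]; ring
      rw [h8] at hQ
      rw [h10] at hηM
      linarith
  · have hgoal : (3 - cc h - 2 * ε) * (NN F T (T + H) : ℝ) ≤ 2 * (Nd F T (T + H) : ℝ) := by
      rcases le_or_gt (3 - cc h - 2 * ε) 0 with h0 | h0
      · exact (mul_nonpos_of_nonpos_of_nonneg h0 hNN0).trans (by positivity)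
      · have h5 : (3 - cc h - 2 * ε) * (NN F T (T + H) : ℝ) ≤
            (3 - cc h - 2 * ε) * (M * (1 + e / 10)) :=
          mul_le_mul_of_nonneg_left hNtot h0.le
        have h6 : (3 - cc h - 2 * ε) * (M * (1 + e / 10)) ≤
            (3 - cc h - 2 * e + 3 * e / 10) * M := by
          have h7 : (3 - cc h - 2 * ε) * (e / 10) ≤ 3 * (e / 10) :=
            mul_le_mul_of_nonneg_right (by linarith) (by positivity)
          calc (3 - cc h - 2 * ε) * (M * (1 + e / 10)) =
              ((3 - cc h - 2 * ε) + (3 - cc h - 2 * ε) * (e / 10)) * M := by ring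
            _ ≤ _ := mul_le_mul_of_nonneg_right (by linarith) hM0.le
        have h8 : M * (cc h + e / 4 + η) = cc h * M + e * M / 4 + e * M / 80 := by
          rw [hη]; ring
        have h9 : (3 - cc h - 2 * e + 3 * e / 10) * M =
            3 * M - cc h * M - 2 * (e * M) + 3 * (e * M) / 10 := by ring
        have h10 : 7 * η * M = 7 * (e * M / 80) := by rw [hη]; ring
        rw [h8] at hQ
        rw [h10] at hηM
        linarith
    linarith

end H602SI
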